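import Pool.Graph.R_seed8.R341.IrrPisot6

/-!
# Irregular Pisot numbers of every degree `12 m` exponentially close to `2`

The definitions `IsPisot`, `SimpleParry`, `Listed` (the polynomials which define the limit points and
the regular Pisot numbers) and the family `PZ n` are those of the library files
`Pool.Graph.R_seed8.R341.IrrPisot*`.
-/

set_option autoImplicit false

open Polynomial

namespace Pool.Agent.Results.MP_3c3704_nt.EveryTwelfthDegree

open Pool.Agent.R341.IrrPisot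

/-- the zeros of `P_m` have absolute value greater than `5 / 8` -/
lemma norm_gt {n : ℕ} (hn : 10 ≤ n) {z : ℂ} (hz : (Pm n).eval z = 0) : 5 / 8 < ‖z‖ := by
  by_contra hle
  rw [not_lt] at hle
  have h0 := norm_nonneg z
  have hp : ∀ k : ℕ, 11 ≤ k → ‖z ^ k‖ ≤ 1 / 150 := by
    intro k hk
    rw [norm_pow]
    calc ‖z‖ ^ k ≤ (5 / 8) ^ k := pow_le_pow_left₀ h0 hle k
      _ ≤ (5 / 8) ^ 11 := pow_le_pow_of_le_one (by norm_num) (by norm_num) hk
      _ ≤ 1 / 150 := by norm_num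
  have e : z - 1 = z ^ (4 * n + 3) * (z - 2) + (z - 1) * z ^ (3 * n + 2) -
      (z - 1) * z ^ (2 * n + 2) + (z - 1) * z ^ (2 * n + 1) - (z - 1) * z ^ (n + 1) := by
    simp only [Pm, eval_add, eval_mul, eval_sub, eval_pow, eval_X, eval_one, eval_ofNat] at hz
    linear_combination (-1 : ℂ) * hz
  have h1 : ‖z - 1‖ ≤ ‖z‖ + 1 := by simpa using norm_sub_le z 1
  have h2 : ‖z - 2‖ ≤ ‖z‖ + 2 := by simpa using norm_sub_le z 2
  have h3 : 1 - ‖z‖ ≤ ‖z - 1‖ := by
    have := norm_sub_norm_le (1 : ℂ) z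
    rw [norm_one, norm_sub_rev] at this
    exact this
  have a1 : ‖z ^ (4 * n + 3) * (z - 2)‖ ≤ 1 / 150 * (‖z‖ + 2) := by
    rw [norm_mul]
    exact mul_le_mul (hp _ (by omega)) h2 (norm_nonneg _) (by norm_num)
  have a2 : ∀ k : ℕ, 11 ≤ k → ‖(z - 1) * z ^ k‖ ≤ (‖z‖ + 1) * (1 / 150) := by
    intro k hk
    rw [norm_mul]
    exact mul_le_mul h1 (hp k hk) (norm_nonneg _) (by linarith)
  have b : ‖z - 1‖ ≤ ‖z ^ (4 * n + 3) * (z - 2)‖ + ‖(z - 1) * z ^ (3 * n + 2)‖ +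
      ‖(z - 1) * z ^ (2 * n + 2)‖ + ‖(z - 1) * z ^ (2 * n + 1)‖ + ‖(z - 1) * z ^ (n + 1)‖ := by
    conv_lhs => rw [e]
    refine (norm_sub_le _ _).trans (add_le_add ?_ le_rfl)
    refine (norm_add_le _ _).trans (add_le_add ?_ le_rfl)
    refine (norm_sub_le _ _).trans (add_le_add ?_ le_rfl)
    exact norm_add_le _ _
  have c1 := a2 (3 * n + 2) (by omega)
  have c2 := a2 (2 * n + 2) (by omega)
  have c3 := a2 (2 * n + 1) (by omega)
  have c4 := a2 (n + 1) (by omega)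
  linarith

lemma conj_gt {n : ℕ} (hn : 10 ≤ n) {β : ℝ} (hβ1 : 1 < β) (hβ : pf n β = 0) {z : ℂ}
    (hz : aeval z (minpoly ℚ β) = 0) : (Real.sqrt 5 - 1) / 2 < ‖z‖ := by
  rw [minpolyQ hβ1 hβ] at hz
  have hz' : (Pm n).eval z = 0 := by
    rw [← PZ_map, eval_map, ← hz, aeval_def, eval₂_map]
    congr 1
  have h := norm_gt hn hz'
  have h5 : Real.sqrt 5 ≤ 9 / 4 := by
    rw [Real.sqrt_le_left (by norm_num)]
    norm_num
  linarith

/-- the conditions of the problem: a Pisot number in `(1.933, 2)` which is irregular and not a simple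
Parry number -/
def Exceptional (q : ℝ) : Prop :=
  1.933 < q ∧ q < 2 ∧ IsPisot q ∧ (∀ R : ℤ[X], Listed R → aeval q R ≠ 0) ∧ ¬ SimpleParry q

theorem family (m : ℕ) (hm : 4 ≤ m) : ∃ q : ℝ, Exceptional q ∧ (minpoly ℚ q).natDegree = 12 * m ∧
    2 - (1 / 1.933) ^ (3 * m) < q ∧ q < 2 - (1 / 2) ^ (3 * m + 1) ∧
    ∀ z : ℂ, aeval z (minpoly ℚ q) = 0 → (Real.sqrt 5 - 1) / 2 < ‖z‖ := by
  obtain ⟨j, rfl⟩ : ∃ j, m = j + 1 := ⟨m - 1, by omega⟩
  have hn : 10 ≤ 3 * j + 2 := by omega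
  obtain ⟨q, h1, h2, h3⟩ := exists_root hn
  obtain ⟨f1, f2⟩ := facts hn h1 h2 h3
  have hq1 : 1 < q := by linarith
  have hq0 : 0 < q := by linarith
  refine ⟨q, ⟨h1, h2, isPisot hq1 h3, fun R hR => irregular hn h1 h2 h3 hR, not_simple hq1 h3⟩,
    ?_, ?_, ?_, fun z hz => conj_gt hn hq1 h3 hz⟩
  · rw [degree_eq hq1 h3]; ring
  · have e : 3 * (j + 1) = 3 * j + 2 + 1 := by ring
    rw [e]
    have hp : (1.933 : ℝ) ^ (3 * j + 2 + 1) ≤ q ^ (3 * j + 2 + 1) :=
      pow_le_pow_left₀ (by norm_num) h1.le _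
    have hp0 : (0 : ℝ) < 1.933 ^ (3 * j + 2 + 1) := by positivity
    rw [one_div, inv_pow]
    have h4 : 1.933 ^ (3 * j + 2 + 1) * (2 - q) < 1 :=
      (mul_le_mul_of_nonneg_right hp (by linarith)).trans_lt (f1.trans (by linarith))
    have h5 : 2 - q < ((1.933 : ℝ) ^ (3 * j + 2 + 1))⁻¹ := by
      rw [lt_inv_comm₀ (by linarith) hp0, inv_eq_one_div, lt_div_iff₀ (by linarith)]
      exact h4
    linarith
  · have e : 3 * (j + 1) + 1 = 3 * j + 2 + 2 := by ring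
    rw [e]
    have hp : q ^ (3 * j + 2 + 2) ≤ (2 : ℝ) ^ (3 * j + 2 + 2) := pow_le_pow_left₀ hq0.le h2.le _
    have hp0 : (0 : ℝ) < 2 ^ (3 * j + 2 + 2) := by positivity
    rw [one_div, inv_pow]
    have h4 : 1 < 2 ^ (3 * j + 2 + 2) * (2 - q) :=
      f2.trans_le (mul_le_mul_of_nonneg_right hp (by linarith))
    have h5 : ((2 : ℝ) ^ (3 * j + 2 + 2))⁻¹ < 2 - q := by
      rw [inv_lt_comm₀ hp0 (by linarith), inv_eq_one_div, div_lt_iff₀ (by linarith)]
      exact h4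
    linarith

/-- **Theorem.** For every `m ≥ 4` there is an irregular Pisot number `q` in `(1.933, 2)` of degree
exactly `12 m` which is not a simple Parry number, with
`2 - 1.933 ^ (-3 m) < q < 2 - 2 ^ (-(3 m + 1))`; all Galois conjugates of `q` have absolute value
greater than `(√5 - 1) / 2`.  In particular, for every `ε > 0` there are infinitely many irregular
Pisot numbers in `(2 - ε, 2)` which have degree `≥ 151` and are not simple Parry numbers, and the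
number of those of degree at most `D` is at least `D / 12 - 13`. -/
theorem result :
    (∀ m : ℕ, 4 ≤ m → ∃ q : ℝ, Exceptional q ∧ (minpoly ℚ q).natDegree = 12 * m ∧
      2 - (1 / 1.933) ^ (3 * m) < q ∧ q < 2 - (1 / 2) ^ (3 * m + 1) ∧
      ∀ z : ℂ, aeval z (minpoly ℚ q) = 0 → (Real.sqrt 5 - 1) / 2 < ‖z‖) ∧
    (∀ ε : ℝ, 0 < ε → Set.Infinite {q : ℝ | Exceptional q ∧ 2 - ε < q ∧
      151 ≤ (minpoly ℚ q).natDegree ∧
      ∀ z : ℂ, aeval z (minpoly ℚ q) = 0 → (Real.sqrt 5 - 1) / 2 < ‖z‖}) ∧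
    (∀ D : ℕ, ∃ S : Finset ℝ, D / 12 ≤ S.card + 12 ∧ ∀ q ∈ S, Exceptional q ∧
      151 ≤ (minpoly ℚ q).natDegree ∧ (minpoly ℚ q).natDegree ≤ D) := by
  classical
  have key : ∀ j : ℕ, ∃ q : ℝ, Exceptional q ∧ (minpoly ℚ q).natDegree = 12 * (j + 13) ∧
      2 - (1 / 1.933) ^ (3 * (j + 13)) < q ∧
      ∀ z : ℂ, aeval z (minpoly ℚ q) = 0 → (Real.sqrt 5 - 1) / 2 < ‖z‖ := fun j => by
    obtain ⟨q, h1, h2, h3, -, h5⟩ := family (j + 13) (by omega)
    exact ⟨q, h1, h2, h3, h5⟩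
  choose f hf1 hf2 hf3 hf4 using key
  have hinj : Function.Injective f := by
    intro a b hab
    have h1 := hf2 a
    have h2 := hf2 b
    rw [hab, h2] at h1
    omega
  refine ⟨fun m hm => family m hm, fun ε hε => ?_, fun D => ?_⟩
  · obtain ⟨N, hN⟩ := exists_pow_lt_of_lt_one hε (show (1 / 1.933 : ℝ) < 1 by norm_num)
    refine (Set.infinite_range_of_injective (hinj.comp (add_left_injective N))).mono ?_
    rintro _ ⟨j, rfl⟩
    have h := hf3 (j + N)
    have h6 : ((1 : ℝ) / 1.933) ^ (3 * (j + N + 13)) ≤ (1 / 1.933) ^ N :=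
      pow_le_pow_of_le_one (by norm_num) (by norm_num) (by omega)
    refine ⟨hf1 _, ?_, ?_, hf4 _⟩
    · simp only [Function.comp_apply]
      linarith
    · simp only [Function.comp_apply]
      rw [hf2]; omega
  · refine ⟨(Finset.range (D / 12 - 12)).image f, ?_, ?_⟩
    · rw [Finset.card_image_of_injective _ hinj, Finset.card_range]; omega
    · intro q hq
      obtain ⟨j, hj, rfl⟩ := Finset.mem_image.1 hq
      rw [Finset.mem_range] at hj
      refine ⟨hf1 j, ?_, ?_⟩ <;> rw [hf2] <;> omega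

end Pool.Agent.Results.MP_3c3704_nt.EveryTwelfthDegree
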